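import Mathlib
import Pool.Agent.U552.CommPair

set_option autoImplicit false

/-!
# Commuting invertible compact perturbations of the pair `(T, T)`

For a Fredholm operator `T` on a complex Hilbert space there are compact operators `K₁`, `K₂` such
that `T + K₁` and `T + K₂` commute and the pair `(T + K₁, T + K₂)` is (Taylor) invertible if and
only if the index of `T` is zero.

Idea: let `A = T + K₁` and `B = T + K₂` commute, with exact Koszul complex, and let the index of
`T` be positive (otherwise pass to adjoints). Then `A - μ` has a nonzero finite-dimensional kernel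
for all small `μ`, and the compact operator `C = A - B`, which commutes with `A`, is injective on
this kernel, since exactness is stable. Hence `A` and `C` have a joint eigenvector with
eigenvalues `μ` and `ν(μ) ≠ 0`, for every small `μ`. For infinitely many `μ` one has
`|ν(μ)| ≥ ε` with one and the same `ε > 0`, which contradicts the compactness of `C`.
-/

open Pool.Agent.U552.CommPair

namespace Pool.Agent.Results.MP_b56e9d_an.IndexZeroOnly

variable {H : Type*} [NormedAddCommGroup H] [InnerProductSpace ℂ H]

/-- A Fredholm operator: closed range, finite-dimensional kernel and cokernel. -/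
def IsFredholmOp (T : H →L[ℂ] H) : Prop :=
  IsClosed (T.range : Set H) ∧ FiniteDimensional ℂ T.ker ∧ FiniteDimensional ℂ (H ⧸ T.range)

/-- The index `dim (ker T) - dim (coker T)`. -/
noncomputable def index (T : H →L[ℂ] H) : ℤ :=
  (Module.finrank ℂ T.ker : ℤ) - Module.finrank ℂ (H ⧸ T.range)

/-- The pair `(S₁, S₂)` is invertible: its Koszul complex is exact. -/
def InvertiblePair (S₁ S₂ : H →L[ℂ] H) : Prop :=
  S₁.ker ⊓ S₂.ker = ⊥ ∧ S₁.range ⊔ S₂.range = ⊤ ∧
    ∀ x y : H, S₁ y = S₂ x → ∃ z, x = S₁ z ∧ y = S₂ z

/-- There are compact `K₁`, `K₂` such that `T + K₁` and `T + K₂` commute and form an invertible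
pair. -/
def HasInvertiblePerturbation (T : H →L[ℂ] H) : Prop :=
  ∃ K₁ K₂ : H →L[ℂ] H, IsCompactOperator K₁ ∧ IsCompactOperator K₂ ∧
    (T + K₁) * (T + K₂) = (T + K₂) * (T + K₁) ∧ InvertiblePair (T + K₁) (T + K₂)

variable [CompleteSpace H]

/-- the cokernel and the orthogonal complement of a closed range -/
noncomputable def cokerEquiv {T : H →L[ℂ] H} (hcl : IsClosed (T.range : Set H)) :
    (H ⧸ T.range) ≃ₗ[ℂ] (T.rangeᗮ : Submodule ℂ H) :=
  have : CompleteSpace (T.range : Submodule ℂ H) := hcl.completeSpace_coe
  Submodule.quotientEquivOfIsCompl _ _ (Submodule.isCompl_orthogonal _)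

theorem iff_index_zero (T : H →L[ℂ] H) (hT : IsFredholmOp T) :
    HasInvertiblePerturbation T ↔ index T = 0 := by
  obtain ⟨hcl, h1, h2⟩ := hT
  have e := cokerEquiv hcl
  have h2' : FiniteDimensional ℂ (T.rangeᗮ : Submodule ℂ H) := e.finiteDimensional
  have h3 : Module.finrank ℂ (H ⧸ T.range) = Module.finrank ℂ (T.rangeᗮ : Submodule ℂ H) :=
    e.finrank_eq
  have h4 : index T = 0 ↔
      Module.finrank ℂ T.ker = Module.finrank ℂ (T.rangeᗮ : Submodule ℂ H) := by
    unfold index
    rw [h3, sub_eq_zero]
    exact Nat.cast_inj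
  rw [h4]
  constructor
  · rintro ⟨K₁, K₂, hK₁, hK₂, hc, hx0, hx1, hx2⟩
    by_contra hne
    exact main_neg hcl h1 h2' hne hK₁ hK₂ hc hx0 hx1 hx2
  · intro heq
    obtain ⟨F, hF, hb⟩ := main_pos hcl h1 h2' heq
    refine ⟨F, F, hF, hF, rfl, ?_, ?_, ?_⟩
    · rw [inf_idem]
      exact LinearMap.ker_eq_bot.2 hb.1
    · rw [sup_idem]
      exact LinearMap.range_eq_top.2 hb.2
    · intro x y hxy
      obtain ⟨z, hz⟩ := hb.2 x
      exact ⟨z, hz.symm, by rw [hb.1 hxy, hz]⟩

/-- On every infinite-dimensional Hilbert space there is an isometry with range of codimension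
one. -/
theorem exists_index_ne_zero (hH : ¬ FiniteDimensional ℂ H) :
    ∃ T : H →L[ℂ] H, IsFredholmOp T ∧ index T = -1 := by
  classical
  obtain ⟨w, b, hb⟩ := exists_hilbertBasis ℂ H
  have hinf : Infinite w := by
    by_contra hfin
    rw [not_infinite_iff_finite] at hfin
    apply hH
    have : Fintype w := Fintype.ofFinite w
    exact (b.toOrthonormalBasis).toBasis.finiteDimensional_of_finite
  obtain ⟨f, hf, i₀, hi₀⟩ : ∃ f : w → w, Function.Injective f ∧ ∃ i₀, Set.range f = {i₀}ᶜ := by
    obtain ⟨i₀⟩ : Nonempty w := inferInstance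
    obtain ⟨e⟩ : Nonempty (w ≃ ({i₀}ᶜ : Set w)) := by
      rw [← Cardinal.eq]
      exact (Cardinal.mk_compl_of_infinite {i₀} (by
        rw [Cardinal.mk_singleton]
        exact Cardinal.one_lt_aleph0.trans_le (Cardinal.aleph0_le_mk w))).symm
    refine ⟨fun i => (e i : w), fun a c h => e.injective (Subtype.ext h), i₀, ?_⟩
    ext j
    constructor
    · rintro ⟨i, rfl⟩
      exact (e i).2
    · intro hj
      exact ⟨e.symm ⟨j, hj⟩, by simp⟩
  have hv : Orthonormal ℂ (fun i => b (f i)) := b.orthonormal.comp f hf
  set V := hv.orthogonalFamily.linearIsometry with hV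
  set Ti : H →ₗᵢ[ℂ] H := V.comp b.repr.toLinearIsometry with hTi
  set T : H →L[ℂ] H := Ti.toContinuousLinearMap with hT
  have hTx : ∀ x, T x = Ti x := fun x => rfl
  have hTb : ∀ i, T (b i) = b (f i) := by
    intro i
    change V (b.repr (b i)) = b (f i)
    rw [b.repr_self, hV, OrthogonalFamily.linearIsometry_apply_single]
    simp
  have hcl : IsClosed (T.range : Set H) := by
    have h1 : (T.range : Set H) = Set.range Ti := by
      ext y
      constructor
      · rintro ⟨x, rfl⟩
        exact ⟨x, rfl⟩
      · rintro ⟨x, rfl⟩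
        exact ⟨x, rfl⟩
    rw [h1]
    exact Ti.isometry.isClosedEmbedding.isClosed_range
  have hker : T.ker = ⊥ := LinearMap.ker_eq_bot.2 Ti.injective
  have hzero : ∀ y : H, (∀ j, inner ℂ (b j) y = 0) → y = 0 := by
    intro y hy
    apply b.repr.injective
    ext j
    rw [b.repr_apply_apply, hy j, map_zero]
    rfl
  have hort : (T.rangeᗮ : Submodule ℂ H) = Submodule.span ℂ {b i₀} := by
    apply le_antisymm
    · intro x hx
      rw [Submodule.mem_span_singleton]
      refine ⟨inner ℂ (b i₀) x, ?_⟩
      rw [← sub_eq_zero]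
      apply hzero
      intro j
      rw [inner_sub_right, inner_smul_right]
      by_cases hj : j = i₀
      · subst hj
        rw [inner_self_eq_norm_sq_to_K, b.orthonormal.1]
        simp
      · have hj' : j ∈ Set.range f := by rw [hi₀]; exact hj
        obtain ⟨i, rfl⟩ := hj'
        have h1 : inner ℂ (b (f i)) x = 0 := by
          rw [← hTb]
          exact (Submodule.mem_orthogonal _ _).1 hx _ ⟨b i, rfl⟩
        rw [h1, b.orthonormal.2 hj, mul_zero, sub_zero]
    · rw [Submodule.span_le, Set.singleton_subset_iff]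
      rw [SetLike.mem_coe, orthogonal_range, LinearMap.mem_ker]
      change ContinuousLinearMap.adjoint T (b i₀) = 0
      apply hzero
      intro j
      rw [ContinuousLinearMap.adjoint_inner_right, hTb]
      apply b.orthonormal.2
      intro h
      have : i₀ ∈ Set.range f := ⟨j, h⟩
      rw [hi₀] at this
      exact this rfl
  have e := cokerEquiv hcl
  have hb0 : b i₀ ≠ 0 := by
    intro h
    have := b.orthonormal.1 i₀
    rw [h, norm_zero] at this
    exact zero_ne_one this
  have hfd : FiniteDimensional ℂ (T.rangeᗮ : Submodule ℂ H) := by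
    rw [hort]; infer_instance
  refine ⟨T, ⟨hcl, ?_, e.symm.finiteDimensional⟩, ?_⟩
  · rw [hker]; infer_instance
  · unfold index
    rw [hker, finrank_bot, e.finrank_eq, hort, finrank_span_singleton hb0]
    norm_num

/-- **Main theorem.**

(1) For every Fredholm operator `T` on a complex Hilbert space: there are compact operators
`K₁`, `K₂` such that `T + K₁` and `T + K₂` commute and the pair `(T + K₁, T + K₂)` is invertible if
and only if the index of `T` is zero.

(2) On every infinite-dimensional complex Hilbert space there is a Fredholm operator of index `-1`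
(so that Q1 has a negative answer on every infinite-dimensional Hilbert space). -/
theorem result (H : Type*) [NormedAddCommGroup H] [InnerProductSpace ℂ H] [CompleteSpace H] :
    (∀ T : H →L[ℂ] H, IsFredholmOp T → (HasInvertiblePerturbation T ↔ index T = 0)) ∧
    (¬ FiniteDimensional ℂ H → ∃ T : H →L[ℂ] H, IsFredholmOp T ∧ index T = -1 ∧
      ¬ HasInvertiblePerturbation T) := by
  refine ⟨fun T hT => iff_index_zero T hT, fun hH => ?_⟩
  obtain ⟨T, hT, hi⟩ := exists_index_ne_zero hH
  refine ⟨T, hT, hi, fun h => ?_⟩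
  rw [iff_index_zero T hT, hi] at h
  norm_num at h

end Pool.Agent.Results.MP_b56e9d_an.IndexZeroOnly
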